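import Mathlib
import Pool.Agent.Y896.HS.U4
import Pool.Agent.Y896.HS.SR3
import Pool.Agent.Y896.HS.TS
import Pool.Agent.Y896.HS.T2
import Pool.Agent.Y182.HS.J
import Pool.Agent.Y908.HS.EX
import Pool.Agent.W342.EG.D7

/-!
# MP_326c77_gt, Q1: the EGS conjecture, for all compact homogeneous spaces, with a constant which
depends on `G` only

`G` is a closed connected subgroup of `U(N)`, i.e. (Peter–Weyl) an arbitrary compact connected Lie
group, `H` a closed subgroup of `G`.  `InvMetric G H k` (file `Pool/Agent/Y896/HS/Defs.lean`) is a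
`G`-invariant Riemannian metric on `G/H`, `lambda1 g` the smallest positive eigenvalue of its
Laplace–Beltrami operator and `diam g` its diameter.
-/

open Matrix

namespace Pool.Agent.Results.MP_326c77_gt.UniformHomogeneousSpaces

open Pool.Agent.Y896.HS

/-- **`λ₁ diam²` is bounded for all compact homogeneous spaces of `G`, by a constant depending on
`G` only.**  For every compact connected Lie group `G` there is a constant `C` such that for all
closed subgroups `H` of `G` (finite subgroups and subgroups with arbitrarily many components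
included) and all `G`-invariant Riemannian metrics `g` on `G/H`, `λ₁(G/H,g) diam(G/H,g)² ≤ C`; if
`H ≠ G`, there are a positive eigenvalue `lam` and a number `r` with `lam r² ≤ C` such that any two
points of `G/H` are joined by a curve of `g`-length at most `r`.

The case `H = 1` is the EGS conjecture (Q1).  The last two parts record that nothing here is
vacuous: every left-invariant metric on `G` (an arbitrary basis of the Lie algebra of `G`) is one of
the metrics `InvMetric G ⊥ m`, and `G`-invariant metrics on `G/H` exist for every `H`. -/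
theorem result (N : ℕ) (G : Subgroup (unitaryGroup (Fin N) ℂ))
    (hclosed : IsClosed (G : Set (unitaryGroup (Fin N) ℂ)))
    (hconn : IsConnected (G : Set (unitaryGroup (Fin N) ℂ))) :
    (∃ C : ℝ, ∀ H : Subgroup (unitaryGroup (Fin N) ℂ), H ≤ G →
      IsClosed (H : Set (unitaryGroup (Fin N) ℂ)) → ∀ (k : ℕ) (g : InvMetric G H k),
        lambda1 g * diam g ^ 2 ≤ C ∧
        (H ≠ G → ∃ lam : ℝ, 0 < lam ∧ IsEigenvalue g lam ∧ ∃ r : ℝ, 0 ≤ r ∧ lam * r ^ 2 ≤ C ∧
          ∀ x ∈ G, ∀ y ∈ G, ∃ ℓ ≤ r, 0 ≤ ℓ ∧
            Joined g (x : unitaryGroup (Fin N) ℂ) (y : unitaryGroup (Fin N) ℂ) ℓ)) ∧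
    (∀ (m : ℕ) (g : Pool.Agent.W544.EG.LeftInvMetric G m), ∃ g' : InvMetric G ⊥ m, g'.X = g.X) ∧
    ∀ H : Subgroup (unitaryGroup (Fin N) ℂ), H ≤ G →
      IsClosed (H : Set (unitaryGroup (Fin N) ℂ)) → ∃ k : ℕ, Nonempty (InvMetric G H k) := by
  refine ⟨?_, fun m g => of_left g, fun H hHG hH => Pool.Agent.Y908.HS.t_EX N G H hclosed hHG hH⟩
  have hTS := t_TS t_R
  exact egsU hTS (t_T hTS) Pool.Agent.Y182.HS.t_J Pool.Agent.W342.EG.S_D_holds hclosed hconn

end Pool.Agent.Results.MP_326c77_gt.UniformHomogeneousSpaces
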